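import Mathlib

namespace Pool.Agent.Results.MP_dcc435_co.Yes

open Matrix Filter Topology

def f (p q r : ℝ) : ℝ := 1 - p ^ 2 - q ^ 2 - r ^ 2 + 2 * p * q * r

lemma bound {a b y : ℝ} (ha : a ^ 2 ≤ 1) (hb : b ^ 2 ≤ 1) (h : 0 ≤ f a b y) : y ^ 2 ≤ 1 := by
  by_contra hc
  push Not at hc
  have e : f a b y = (1 - a ^ 2) * (1 - y ^ 2) - (b - a * y) ^ 2 := by unfold f; ring
  have h1 : (1 - a ^ 2) * (1 - y ^ 2) ≤ 0 := by nlinarith
  have h2 : b - a * y = 0 := by nlinarith [sq_nonneg (b - a * y)]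
  have h3 : a ^ 2 = 1 := by nlinarith [sq_nonneg (b - a * y)]
  have : b ^ 2 = a ^ 2 * y ^ 2 := by rw [sub_eq_zero.1 h2]; ring
  nlinarith

def S (a b : ℚ) : Set ℝ := {t | (∃ q : ℚ, t = q) ∧ 0 ≤ f a b t}

lemma near (a b : ℚ) {y : ℝ} (h : 0 ≤ f a b y) : y ∈ closure (S a b) := by
  have e : ∀ t : ℝ, f a b t = (1 - a ^ 2) * (1 - b ^ 2) - (t - a * b) ^ 2 := by
    intro t; unfold f; ring
  rw [Metric.mem_closure_iff]
  intro ε hε
  rcases lt_trichotomy y (a * b) with h1 | h1 | h1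
  · obtain ⟨q, q1, q2⟩ := exists_rat_btwn (lt_min h1 (lt_add_of_pos_right y hε))
    rw [lt_min_iff] at q2
    refine ⟨q, ⟨⟨q, rfl⟩, ?_⟩, by rw [Real.dist_eq, abs_lt]; constructor <;> linarith⟩
    rw [e] at h ⊢
    nlinarith
  · exact ⟨y, ⟨⟨a * b, by rw [h1]; push_cast; rfl⟩, h⟩, by simpa using hε⟩
  · obtain ⟨q, q1, q2⟩ := exists_rat_btwn (max_lt h1 (sub_lt_self y hε))
    rw [max_lt_iff] at q1
    refine ⟨q, ⟨⟨q, rfl⟩, ?_⟩, by rw [Real.dist_eq, abs_lt]; constructor <;> linarith⟩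
    rw [e] at h ⊢
    nlinarith

def Good (a b c d e : ℚ) : Prop := ∃ y z : ℚ, 0 ≤ f a b y ∧ 0 ≤ f d e z ∧ 0 ≤ f c y z

lemma Good.symm {a b c d e : ℚ} (h : Good d e c a b) : Good a b c d e := by
  obtain ⟨y, z, h1, h2, h3⟩ := h
  exact ⟨z, y, h2, h1, by unfold f at *; linarith⟩

lemma opn {a b c d e : ℚ} {y z : ℝ} (h1 : 0 ≤ f a b y) (h3 : 0 ≤ f d e z) (hq : 0 < f c y z) :
    Good a b c d e := by
  have m : (y, z) ∈ closure (S a b ×ˢ S d e) := by
    rw [closure_prod_eq]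
    exact ⟨near a b h1, near d e h3⟩
  obtain ⟨p, hp, ⟨⟨y', e1⟩, g1⟩, ⟨z', e2⟩, g2⟩ := mem_closure_iff.1 m {p | 0 < f c p.1 p.2}
    (isOpen_lt continuous_const (by unfold f; fun_prop)) hq
  exact ⟨y', z', e1 ▸ g1, e2 ▸ g2, e1 ▸ e2 ▸ le_of_lt hp⟩

lemma side {a b c d e : ℚ} {y z : ℝ} (hc : (c : ℝ) ^ 2 ≤ 1) (hd : (d : ℝ) ^ 2 ≤ 1)
    (he : (e : ℝ) ^ 2 ≤ 1) (h1 : 0 < f a b y) (h3 : 0 ≤ f d e z) (hq : 0 ≤ f c y z) :
    Good a b c d e := by
  by_cases h : y = c * z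
  · obtain ⟨p, hp, ⟨z', e2⟩, g2⟩ := mem_closure_iff.1 (near d e h3) {p | 0 < f a b (c * p)}
      (isOpen_lt continuous_const (by unfold f; fun_prop)) (by rw [h] at h1; exact h1)
    subst e2
    refine ⟨c * z', z', by push_cast; exact le_of_lt hp, g2, ?_⟩
    have := mul_nonneg (sub_nonneg.2 hc) (sub_nonneg.2 (bound hd he g2))
    unfold f
    push_cast
    nlinarith
  · have ev : ∀ᶠ t in 𝓝 (0 : ℝ), 0 < f a b (y + t * (c * z - y)) := by
      have : ContinuousAt (fun t : ℝ => f a b (y + t * (c * z - y))) 0 := by unfold f; fun_prop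
      exact this.eventually (lt_mem_nhds (by simpa using h1))
    obtain ⟨t, t1, t2, t3⟩ := ((ev.filter_mono nhdsWithin_le_nhds).and
      (Ioo_mem_nhdsGT (zero_lt_one' ℝ))).exists
    refine opn t1.le h3 ?_
    have e : f c (y + t * (c * z - y)) z = f c y z + t * (2 - t) * (y - c * z) ^ 2 := by
      unfold f; ring
    have : 0 < t * (2 - t) * (y - c * z) ^ 2 :=
      mul_pos (mul_pos t2 (by linarith)) (pow_pos_of_ne_zero' h)
    linarith
where pow_pos_of_ne_zero' {p q : ℝ} (h : ¬ p = q) : 0 < (p - q) ^ 2 :=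
  sq_pos_of_ne_zero (sub_ne_zero.2 h)

lemma irr {u : ℝ} (hu : ¬ ∃ q : ℚ, u = q) (α β : ℚ) (h : α + β * u = 0) : β = 0 := by
  by_contra hb
  have : (β : ℝ) ≠ 0 := by exact_mod_cast hb
  exact hu ⟨-α / β, by push_cast; field_simp; linarith⟩

lemma odd {u w : ℝ} (hu : ¬ ∃ q : ℚ, u = q) (hw : ¬ ∃ q : ℚ, w = q) (D E q p r c : ℚ)
    (h1 : u ^ 2 = D) (h2 : w ^ 2 = E) (h : q + p * u + r * w + c * (u * w) = 0) :
    p * u + r * w = 0 := by
  by_cases ht : ∃ t : ℚ, u * w = t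
  · obtain ⟨t, ht⟩ := ht
    have := irr hu (p * D + r * t) (q + c * t) (by
      push_cast
      linear_combination u * h - p * h1 - (r + c * u) * ht)
    have : (q : ℝ) + c * t = 0 := by exact_mod_cast this
    linear_combination h - this - c * ht
  · by_cases h0 : r + c * u = 0
    · have c0 := irr hu r c h0
      subst c0
      have r0 : (r : ℝ) = 0 := by simpa using h0
      have p0 := irr hu q p (by push_cast at h; linear_combination h - w * r0)
      simp [p0, r0]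
    · exfalso
      have hN : ((r ^ 2 - c ^ 2 * D : ℚ) : ℝ) ≠ 0 := by
        intro hN
        have : (r + c * u) * (r - c * u) = 0 := by
          push_cast at hN
          linear_combination hN - c ^ 2 * h1
        have h3 := (mul_eq_zero.1 this).resolve_left h0
        have c0 := irr hu r (-c) (by push_cast; linarith)
        have c1 : (c : ℝ) = 0 := by exact_mod_cast neg_eq_zero.1 c0
        apply h0
        rw [c1] at h3 ⊢
        linarith
      have k : ((r ^ 2 - c ^ 2 * D : ℚ) : ℝ) * w =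
          (c * p * D - q * r : ℚ) + (q * c - p * r : ℚ) * u := by
        push_cast
        linear_combination (r - c * u) * h + (c ^ 2 * w + c * p) * h1
      generalize r ^ 2 - c ^ 2 * D = N at *
      generalize c * p * D - q * r = A at *
      generalize q * c - p * r = B at *
      have := irr hu (A ^ 2 + B ^ 2 * D - N ^ 2 * E) (2 * A * B) (by
        push_cast
        linear_combination (-(N * w + A + B * u)) * k - B ^ 2 * h1 + N ^ 2 * h2)
      rcases mul_eq_zero.1 this with h3 | h3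
      · have A0 : A = 0 := by linarith
        subst A0
        exact ht ⟨B * D / N, by push_cast at k ⊢; field_simp; linear_combination u * k + B * h1⟩
      · subst h3
        exact hw ⟨A / N, by push_cast at k ⊢; field_simp; linear_combination k⟩

lemma half {a b c d e z : ℚ} {y : ℝ} (ha : (a : ℝ) ^ 2 ≤ 1) (hb : (b : ℝ) ^ 2 ≤ 1)
    (hc : (c : ℝ) ^ 2 ≤ 1) (hd : (d : ℝ) ^ 2 ≤ 1) (he : (e : ℝ) ^ 2 ≤ 1)
    (h1 : f a b y = 0) (h3 : 0 ≤ f d e z) (hq : f c y z = 0) : Good a b c d e := by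
  by_cases hy : ∃ q : ℚ, y = q
  · obtain ⟨q, rfl⟩ := hy
    exact ⟨q, z, h1.ge, h3, hq.ge⟩
  · have := irr hy (a ^ 2 + b ^ 2 - c ^ 2 - z ^ 2) (2 * (c * z - a * b)) (by
      unfold f at h1 hq
      push_cast
      linear_combination hq - h1)
    have k : (c : ℝ) * z = a * b := by
      have : c * z = a * b := by linarith
      exact_mod_cast this
    refine ⟨a * b, z, ?_, h3, ?_⟩
    · have := mul_nonneg (sub_nonneg.2 ha) (sub_nonneg.2 hb)
      unfold f
      push_cast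
      nlinarith
    · have := mul_nonneg (sub_nonneg.2 hc) (sub_nonneg.2 (bound hd he h3))
      unfold f
      push_cast
      rw [← k]
      nlinarith

lemma good {a b c d e : ℚ} {y z : ℝ} (ha : (a : ℝ) ^ 2 ≤ 1) (hb : (b : ℝ) ^ 2 ≤ 1)
    (hc : (c : ℝ) ^ 2 ≤ 1) (hd : (d : ℝ) ^ 2 ≤ 1) (he : (e : ℝ) ^ 2 ≤ 1)
    (h1 : 0 ≤ f a b y) (h3 : 0 ≤ f d e z) (hq : 0 ≤ f c y z) : Good a b c d e := by
  have sw : f c z y = f c y z := by unfold f; ring
  rcases hq.eq_or_lt with hq0 | hq0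
  swap
  · exact opn h1 h3 hq0
  rcases h1.eq_or_lt with h10 | h10
  swap
  · exact side hc hd he h10 h3 hq
  rcases h3.eq_or_lt with h30 | h30
  swap
  · exact (side hc ha hb h30 h1 (sw ▸ hq)).symm
  by_cases hz : ∃ q : ℚ, z = q
  · obtain ⟨q, rfl⟩ := hz
    exact half ha hb hc hd he h10.symm h3 hq0.symm
  by_cases hy : ∃ q : ℚ, y = q
  · obtain ⟨q, rfl⟩ := hy
    exact (half hd he hc ha hb h30.symm h1 (sw ▸ hq0.symm)).symm
  obtain ⟨u, rfl⟩ : ∃ u, y = a * b + u := ⟨y - a * b, by ring⟩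
  obtain ⟨w, rfl⟩ : ∃ w, z = d * e + w := ⟨z - d * e, by ring⟩
  unfold f at h10 h30 hq0
  have := odd (u := u) (w := w) (fun ⟨q, h⟩ => hy ⟨a * b + q, by rw [h]; push_cast; rfl⟩)
    (fun ⟨q, h⟩ => hz ⟨d * e + q, by rw [h]; push_cast; rfl⟩)
    ((1 - a ^ 2) * (1 - b ^ 2)) ((1 - d ^ 2) * (1 - e ^ 2))
    (1 - c ^ 2 - (a * b) ^ 2 - (d * e) ^ 2 + 2 * c * (a * b) * (d * e)
      - (1 - a ^ 2) * (1 - b ^ 2) - (1 - d ^ 2) * (1 - e ^ 2))
    (2 * c * (d * e) - 2 * (a * b)) (2 * c * (a * b) - 2 * (d * e)) (2 * c)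
    (by push_cast; linear_combination h10) (by push_cast; linear_combination h30)
    (by push_cast; linear_combination h10 + h30 - hq0)
  push_cast at this
  refine ⟨a * b, d * e, ?_, ?_, ?_⟩
  · have := mul_nonneg (sub_nonneg.2 ha) (sub_nonneg.2 hb)
    unfold f
    push_cast
    nlinarith
  · have := mul_nonneg (sub_nonneg.2 hd) (sub_nonneg.2 he)
    unfold f
    push_cast
    nlinarith
  · have k : f c (a * b) (d * e) = (u - c * w) ^ 2 + (1 - c ^ 2) * w ^ 2 := by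
      unfold f
      linear_combination - hq0 - this
    push_cast
    rw [k]
    have := mul_nonneg (sub_nonneg.2 hc) (sq_nonneg w)
    positivity

lemma glue {a b y : ℚ} (ha : (a : ℝ) ^ 2 ≤ 1) (hy : (y : ℝ) ^ 2 ≤ 1) (h : 0 ≤ f a b y) :
    ∃ α β : ℚ, a = α + β * y ∧ b = α * y + β ∧ 0 ≤ 1 - α * a - β * b := by
  have h' : 0 ≤ 1 - a ^ 2 - b ^ 2 - y ^ 2 + 2 * a * b * y := by
    unfold f at h
    exact_mod_cast h
  have ha' : a ^ 2 ≤ 1 := by exact_mod_cast ha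
  have hy' : y ^ 2 ≤ 1 := by exact_mod_cast hy
  rcases hy'.eq_or_lt with h1 | h1
  · refine ⟨a, 0, by ring, ?_, by nlinarith⟩
    have : (b - a * y) ^ 2 ≤ 0 := by nlinarith
    nlinarith [sq_nonneg (b - a * y)]
  · have p : 0 < 1 - y ^ 2 := by linarith
    refine ⟨(a - b * y) / (1 - y ^ 2), (b - a * y) / (1 - y ^ 2), by field_simp; ring,
      by field_simp; ring, ?_⟩
    have : 1 - (a - b * y) / (1 - y ^ 2) * a - (b - a * y) / (1 - y ^ 2) * b =
        (1 - a ^ 2 - b ^ 2 - y ^ 2 + 2 * a * b * y) / (1 - y ^ 2) := by field_simp; ring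
    rw [this]
    positivity

theorem result (x : Fin 5 → ℚ)
    (h : ∃ X : Matrix (Fin 5) (Fin 5) ℝ, X.PosSemidef ∧ (∀ i, X i i = 1) ∧
      ∀ i, X i (i + 1) = x i) :
    ∃ X : Matrix (Fin 5) (Fin 5) ℝ, X.PosSemidef ∧ (∀ i, X i i = 1) ∧
      (∀ i, X i (i + 1) = x i) ∧ ∀ i j, ∃ q : ℚ, X i j = q := by
  obtain ⟨X, hX, h1, hx⟩ := h
  have sy : ∀ i j, X j i = X i j := fun i j => by simpa using hX.1.apply i j
  have t : ∀ i j k, 0 ≤ f (X i j) (X i k) (X j k) := by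
    intro i j k
    have := (hX.submatrix ![i, j, k]).det_nonneg
    simp [det_fin_three, h1] at this
    rw [sy i j, sy i k, sy j k] at this
    unfold f
    linarith
  have s : ∀ i, (x i : ℝ) ^ 2 ≤ 1 := by
    intro i
    have := (hX.submatrix ![i, i + 1]).det_nonneg
    simp [det_fin_two, h1] at this
    rw [sy i (i + 1), hx] at this
    linarith
  have x0 : X 0 1 = x 0 := hx 0
  have x1 : X 1 2 = x 1 := hx 1
  have x2 : X 2 3 = x 2 := hx 2
  have x3 : X 3 4 = x 3 := hx 3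
  have x4 : X 4 0 = x 4 := hx 4
  obtain ⟨y, z, g1, g3, gq⟩ := good (y := X 0 2) (z := X 0 3) (s 0) (s 1) (s 2) (s 4) (s 3)
    (by rw [← x0, ← x1, ← sy 0 1]; exact t 1 0 2) (by rw [← x4, ← x3, ← sy 3 4]; exact t 4 0 3)
    (by have := t 0 2 3; rw [← x2]; unfold f at *; linarith)
  have hy := bound (s 0) (s 1) g1
  have hz := bound (s 4) (s 3) g3
  obtain ⟨α1, β1, a1, b1, n1⟩ := glue (s 0) hy g1
  obtain ⟨α4, β4, a4, b4, n4⟩ := glue (s 4) hz g3
  obtain ⟨α, β, a3, b3, n3⟩ := glue (b := x 2) hz hy (by unfold f at *; linarith)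
  let R : Matrix (Fin 5) (Fin 5) ℚ :=
    !![1, α1 + β1 * y, y, α + β * y, α4 + β4 * (α + β * y); 0, β1, 1, β, β4 * β;
      0, 0, 0, 1, β4; 0, 1, 0, 0, 0; 0, 0, 0, 0, 1]
  let w : Fin 5 → ℚ := ![1, 1 - y ^ 2, 1 - α * z - β * x 2, 1 - α1 * x 0 - β1 * x 1,
    1 - α4 * x 4 - β4 * x 3]
  have hw : ∀ i, 0 ≤ w i := by
    have : y ^ 2 ≤ 1 := by exact_mod_cast hy
    intro i
    fin_cases i
    exacts [zero_le_one, sub_nonneg.2 this, n3, n1, n4]
  let Y : Matrix (Fin 5) (Fin 5) ℚ := Rᵀ * diagonal w * R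
  have Ye : ∀ i j, Y i j = ∑ k, R k i * w k * R k j := by
    intro i j
    simp only [Y, mul_apply (M := Rᵀ * diagonal w), mul_diagonal, transpose_apply]
  refine ⟨Y.map (↑), ?_, fun i => ?_, fun i => ?_, fun i j => ⟨_, rfl⟩⟩
  · have e : Y.map (↑) = (R.map (↑) : Matrix _ _ ℝ)ᴴ * diagonal (fun i => (w i : ℝ)) * R.map (↑) := by
      ext i j
      simp only [map_apply, Ye, mul_apply (N := (R.map (↑) : Matrix _ _ ℝ)), mul_diagonal, conjTranspose_apply]
      simp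
    rw [e]
    exact (PosSemidef.diagonal (fun i => by simpa using hw i)).conjTranspose_mul_mul_same _
  · have : Y i i = 1 := by
      rw [Ye]
      fin_cases i <;> simp [R, w, Fin.sum_univ_five] <;> grind
    simp [this]
  · have : Y i (i + 1) = x i := by
      rw [Ye]
      fin_cases i <;> simp [R, w, Fin.sum_univ_five] <;> grind
    simp [this]

end Pool.Agent.Results.MP_dcc435_co.Yes
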